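import Mathlib
import Pool.Agent.Y359.PE.Dich2
import Pool.Agent.Y359.PE.NoPop
import Pool.Agent.Y359.PE.Gen2

/-!
# The Erdős–Szemerédi conjecture for sets of integers with few popular primes

Call a prime `p` `L`-popular for a finite set `A` of integers if for every `e` the exponent of `p`
is different from `e` for more than `|A| / L` elements of `A`. (If `p` is not `L`-popular, `A` has
a typical exponent of `p`, for example `0`; exceptional elements may have any exponent.)

1. If no prime is `L`-popular, the `k`-fold product set has at least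
   `2 ^ (-k) |A| ^ (k - 5 k ^ 3 / log L)` elements, for every `L > 1`.
2. The rate `1 / log L` is the right one: for all `L`, `t` there is a set `A` of `L ^ t` integers
   such that every prime divides at most `|A| / L` elements, while the number of the `k`-fold
   products is at most `(L + k - 1 choose k) ^ t`, which is at most
   `|A| ^ (k - log (4 / 3) / log L)`.
3. For every `k` and `ε` there are `L`, `δ`, `c` such that
   `max (|kA|, |A ^ (k)|) ≥ c |B| ^ (k - ε)` for all finite sets `B ⊆ A` of integers for which
   all primes outside a set of at most `δ log |B| / log log |B|` primes are not `L`-popular.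

Proof of 1. Let `x`, `y` be independent and uniformly distributed in `A`, and `B`. The entropy of
`x y` is at least the entropy of the vector of the valuations of `x y`. Expose the primes one by one:
given the valuations of `x` and of `y` at the earlier primes, the valuations at the next prime are
independent and most of the time almost constant, and for two independent variables which vanish
with probability at least `1 - θ` the entropy of the sum is at least `1 - 2 / log (1 / θ)` times the
sum of the entropies (`cell_main`). For 3 let `T` be the set of the unpopular primes. If most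
elements of `A` have few companions with the same valuations at `T`, the same argument works.
Otherwise the theorem `LongFibres` of the starting files applies to the other elements.
-/

set_option autoImplicit false

namespace Pool.Agent.Results.MP_120218_co.FewPopularPrimes

open Classical in
theorem result :
    (∀ k : ℕ, 1 ≤ k → ∀ L : ℝ, 1 < L → ∀ A : Finset ℤ, A.Nonempty → (0 : ℤ) ∉ A →
      (∀ p : ℕ, p.Prime → ∃ e : ℕ,
        L * ((A.filter fun a => a.natAbs.factorization p ≠ e).card : ℝ) ≤ A.card) →
      (A.card : ℝ) ^ ((k : ℝ) - 5 * k ^ 3 / Real.log L) ≤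
        2 ^ k * ((Fintype.piFinset fun _ : Fin k => A).image fun f => ∏ i, f i).card) ∧
    (∀ k L t : ℕ, 1 ≤ L → 1 ≤ t → ∃ A : Finset ℤ, A.card = L ^ t ∧ (0 : ℤ) ∉ A ∧
      (∀ p : ℕ, L * (A.filter fun a => a.natAbs.factorization p ≠ 0).card ≤ A.card) ∧
      ((Fintype.piFinset fun _ : Fin k => A).image fun f => ∏ i, f i).card ≤
        (Nat.choose (L + k - 1) k) ^ t ∧
      (2 ≤ k → 2 ≤ L →
        (((Fintype.piFinset fun _ : Fin k => A).image fun f => ∏ i, f i).card : ℝ) ≤
          (A.card : ℝ) ^ ((k : ℝ) - Real.log (4 / 3) / Real.log L))) ∧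
    (∀ k : ℕ, 1 ≤ k → ∀ ε : ℝ, 0 < ε → ∃ L δ c : ℝ, 1 ≤ L ∧ 0 < δ ∧ 0 < c ∧
      ∀ (A B : Finset ℤ) (P : Finset ℕ), B ⊆ A → B.Nonempty → (∀ p ∈ P, p.Prime) →
      (P.card : ℝ) * Real.log (Real.log B.card) ≤ δ * Real.log B.card →
      (∀ p : ℕ, p.Prime → p ∉ P → ∃ e : ℕ,
        L * ((B.filter fun b => b ≠ 0 ∧ b.natAbs.factorization p ≠ e).card : ℝ) ≤ B.card) →
      c * (B.card : ℝ) ^ ((k : ℝ) - ε) ≤
        max (((Fintype.piFinset fun _ : Fin k => A).image fun f => ∑ i, f i).card : ℝ)
          (((Fintype.piFinset fun _ : Fin k => A).image fun f => ∏ i, f i).card : ℝ)) := by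
  refine ⟨?_, ?_, ?_⟩
  · intro k hk L hL A hA h0 hpop
    exact Pool.Agent.Y359.PE.nopop k hk L hL A hA h0 hpop
  · intro k L t hL ht
    exact Pool.Agent.Y359.PE.example_sharp' k L t hL ht
  · intro k hk ε hε
    obtain ⟨L, δ, c, hL, hδ, hc, h⟩ := Pool.Agent.Y359.PE.dich k hk (min ε 1)
      (lt_min hε one_pos) (min_le_right _ _)
    refine ⟨L, δ, c, hL, hδ, hc, fun A B P hBA hB hP hPc hpop => ?_⟩
    refine le_trans ?_ (h A B P hBA hB hP hPc hpop)
    refine mul_le_mul_of_nonneg_left ?_ hc.le
    refine Real.rpow_le_rpow_of_exponent_le ?_ ?_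
    · exact_mod_cast Finset.card_pos.2 hB
    · have := min_le_left ε 1
      linarith

end Pool.Agent.Results.MP_120218_co.FewPopularPrimes
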