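import Pool.Agent.Y849.LW.Fin

/-!
# Sets of integers with few products are `Λ(2k)` sets

Let `k, n ≥ 2` and `2k - 1 ≤ (n - (n-1)/(2k-1)) ^ β` (so `β` is about `log (2k-1) / log n`). For a
finite set `A` of nonzero integers and a finite nonempty set `B` of positive integers put
`T(A, B) = (|AB| / |B|) (|B^n| / |B|) ^ β`, where `B^n` is the set of the products of `n` elements of
`B`. Then `A` is a `Λ(2k)` set with constant at most `T(A, B) ^ (1/2)`:

`∫ |∑ c_m e(m x)| ^ (2k) dx ≤ (T(A, B) ∑ |c_m|²) ^ k`, the sums over `m ∈ A`.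

So every subset `C` of `A` has `k`-fold additive energy at most `(T |C|) ^ k`, and
`|l₁ A₁ + ... + l_k A_k| ≥ ∏ |A_i| / T(A_i, B_i)` for all nonzero integers `l_i` and all such sets
`A_i, B_i`. With `B = A` (positive) and `n = 2`: if `|AA| ≤ K |A|` then `T ≤ K ^ (1 + β)`.

Method. `W(B)` is the largest mass of a weight `w` on `B` such that
`‖∑ w(m) h(m) e(m x)‖_(2k)² ≤ ∑ w(m) |h(m)|²` for every `h`. If `B₀` is the class of the elements of
least valuation at a prime and `B₁` is the rest then `W(B) ≥ W(B₁) + W(B₀) / (2k-1)` (two-smoothness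
of `L^(2k)`), and the induction over valuation classes of the starting files
(`MP_120218_co.SumsVersusIteratedProducts`) gives `|B| ^ (1+β) ≤ W(B) |B^n| ^ β`, also for the set of
the inverses of the elements of `B`. These weights can be dilated and restricted to subsets. For
`x ∈ AB` move the weight of the inverse of `b` to `x / b` if `x / b ∈ A`; the average of these
weights over all `x ∈ AB` is constant on `A`, and the square of the norm is convex.
-/

set_option autoImplicit false

open scoped Pointwise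

namespace Pool.Agent.Results.MP_120218_co.FewProductsLambdaSets

open Finset

theorem result (k n : ℕ) (hk : 2 ≤ k) (hn : 2 ≤ n) (β : ℝ)
    (hβ : (2 * k - 1 : ℝ) ≤ ((n : ℝ) - (n - 1) / (2 * k - 1)) ^ β) :
    -- the `Λ(2k)` inequality
    (∀ A B : Finset ℤ, (0 : ℤ) ∉ A → B.Nonempty → (∀ b ∈ B, 0 < b) → ∀ c : ℤ → ℂ,
      ∫ x in (0:ℝ)..1,
        ‖∑ m ∈ A, c m * Complex.exp (2 * Real.pi * Complex.I * m * x)‖ ^ (2 * k) ≤
          (((A * B).card : ℝ) / B.card *
            ((((Fintype.piFinset fun _ : Fin n => B).image fun f => ∏ j, f j).card : ℝ) /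
              B.card) ^ β * ∑ m ∈ A, ‖c m‖ ^ 2) ^ k) ∧
    -- sums of dilates of `k` sets
    (∀ A B : Fin k → Finset ℤ, (∀ i, (0 : ℤ) ∉ A i) → (∀ i, (B i).Nonempty) →
      (∀ i, ∀ b ∈ B i, 0 < b) → ∀ l : Fin k → ℤ, (∀ i, l i ≠ 0) →
      ∏ i, ((A i).card : ℝ) ≤
        (∏ i, ((A i * B i).card : ℝ) / (B i).card *
          ((((Fintype.piFinset fun _ : Fin n => B i).image fun f => ∏ j, f j).card : ℝ) /
            (B i).card) ^ β) *
          (((Fintype.piFinset A).image fun a => ∑ i, l i * a i).card : ℝ)) :=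
  Pool.Agent.Y849.LW.fin hk hn hβ

end Pool.Agent.Results.MP_120218_co.FewProductsLambdaSets
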