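import Pool.Agent.Y359.LE.Along

/-!
# A decomposition of every finite set of integers: few additive or few multiplicative coincidences

Every finite set `A` of integers is the disjoint union of a set `B` with small additive energies and
a set `A \ B` whose `k`-fold multiplicative representation function is bounded by `C |A| ^ ε` at
EVERY nonzero integer (for all `k`, `ε`, and all savings `b` on the additive side; the order `M` of
the additive energy and `C` depend on `k`, `ε`, `b` only). So there is a large subset `A'` of `A`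
with one of two robust forms of the two alternatives of the Erdős–Szemerédi conjecture:
all dense sets `H` of `m`-tuples, `m ≥ M`, have many sums (`|H| ^ 2 |A| ^ (b - 2 m)`), or all sets
`H` of `k`-tuples, however sparse, have almost as many products as members.

Proof: if the `M`-fold additive energy is at least `|A| ^ (2 M - b)`, `M = 2 ^ J`, the energy grows
almost as fast as possible from some `m = 2 ^ j` to `2 m`. A level set of the `m`-fold
representation function then has large additive energy, and the theorem of Balog, Szemerédi and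
Gowers gives a set `P` with few sums, a translate of which contains a large part `D` of the set.
`|D + P|` is small, so that `D` has few factorisations (`Pool.Agent.Y359.DB`). Remove `D` and
repeat; there are few steps, and a factorisation in the union is one in a choice of `k` pieces.
-/

set_option autoImplicit false

namespace Pool.Agent.Results.MP_120218_co.LowEnergyDecomposition

theorem result (k : ℕ) (hk : 1 ≤ k) (ε b : ℝ) (hε : 0 < ε) (hb : 0 < b) :
    (∃ M : ℕ, 1 ≤ M ∧ ∃ C : ℝ, 0 < C ∧ ∀ A : Finset ℤ, ∃ B ⊆ A,
      (∀ m : ℕ, M ≤ m →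
        ((((Fintype.piFinset fun _ : Fin m => B) ×ˢ (Fintype.piFinset fun _ : Fin m => B)).filter
          fun p => ∑ i, p.1 i = ∑ i, p.2 i).card : ℝ) ≤ (A.card : ℝ) ^ (2 * (m : ℝ) - b)) ∧
      ∀ u : ℤ, u ≠ 0 →
        (((Fintype.piFinset fun _ : Fin k => A \ B).filter fun f => ∏ i, f i = u).card : ℝ) ≤
          C * (A.card : ℝ) ^ ε) ∧
    (∃ M : ℕ, 1 ≤ M ∧ ∃ C : ℝ, 0 < C ∧ ∀ A : Finset ℤ, ∃ A' ⊆ A, A.card ≤ 2 * A'.card ∧
      ((∀ m : ℕ, M ≤ m → ∀ H : Finset (Fin m → ℤ), (∀ f ∈ H, ∀ i, f i ∈ A') →
        (H.card : ℝ) ^ 2 ≤ (A.card : ℝ) ^ (2 * (m : ℝ) - b) *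
          ((H.image fun f => ∑ i, f i).card : ℝ)) ∨
      (∀ H : Finset (Fin k → ℤ), (∀ f ∈ H, (∀ i, f i ∈ A') ∧ ∏ i, f i ≠ 0) →
        (H.card : ℝ) ≤ C * (A.card : ℝ) ^ ε * ((H.image fun f => ∏ i, f i).card : ℝ)))) :=
  ⟨Pool.Agent.Y359.LE.decomposition k hk ε b hε hb, Pool.Agent.Y359.LE.along k hk ε b hε hb⟩

end Pool.Agent.Results.MP_120218_co.LowEnergyDecomposition
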