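import Pool.Agent.Y927.DG.E
import Pool.Agent.Y927.LS.D

set_option autoImplicit false

namespace Pool.Agent.Results.MP_120218_co.SparseExpansions

open Finset

/-- The `k`-fold Erdős–Szemerédi inequality for sets of integers with sparse expansions (if
necessary after one affine map `x ↦ q x + t`): sums of few elements of a lacunary set of positive
reals (any set with at most `L` elements in each interval `(x, 2x]`), few nonzero signed digits in
a base `g`, or few digit changes in a base `g`. -/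
theorem result :
    -- (1) sums of at most `s` elements of a lacunary set: size of the `k`-fold sumset
    (∀ k L s : ℕ, 1 ≤ k → 1 ≤ L → ∀ Lam : Set ℝ, (∀ l ∈ Lam, 0 < l) →
      (∀ x : ℝ, 0 < x → (Lam ∩ Set.Ioc x (2 * x)).encard ≤ L) → ∀ q t : ℝ, q ≠ 0 →
      ∀ A : Finset ℤ,
        (∀ a ∈ A, ∃ M : Multiset ℝ, Multiset.card M ≤ s ∧ (∀ l ∈ M, l ∈ Lam) ∧
          M.sum = q * a + t) →
        A.card ^ k ≤ (4 * k * L) ^ (k * s) *
          ((Fintype.piFinset (fun _ : Fin k => A)).image (fun f : Fin k → ℤ => ∑ i, f i)).card) ∧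
    -- (2) the same for sets with a large subset of such sums, exponent `k (1 - 2 θ)`
    (∀ θ : ℝ, ∀ k L s : ℕ, 1 ≤ k → 1 ≤ L → ∀ Lam : Set ℝ, (∀ l ∈ Lam, 0 < l) →
      (∀ x : ℝ, 0 < x → (Lam ∩ Set.Ioc x (2 * x)).encard ≤ L) → ∀ q t : ℝ, q ≠ 0 →
      ∀ A B : Finset ℤ, A.Nonempty → B ⊆ A → (A.card : ℝ) ^ (1 - θ) ≤ B.card →
        (s : ℝ) * Real.log (4 * k * L) ≤ θ * Real.log A.card →
        (∀ b ∈ B, ∃ M : Multiset ℝ, Multiset.card M ≤ s ∧ (∀ l ∈ M, l ∈ Lam) ∧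
          M.sum = q * b + t) →
        (A.card : ℝ) ^ ((k : ℝ) * (1 - 2 * θ)) ≤
          (((Fintype.piFinset (fun _ : Fin k => A)).image
            (fun f : Fin k → ℤ => ∑ i, f i)).card : ℝ)) ∧
    -- (3) signed digits in one base
    (∀ g : ℕ, 2 ≤ g → ∀ k : ℕ, 1 ≤ k → ∀ (s : ℕ) (q t : ℤ), q ≠ 0 → ∀ A : Finset ℤ,
      (∀ a ∈ A, ∃ l : List (ℤ × ℕ), l.length ≤ s ∧ (∀ p ∈ l, |p.1| < g) ∧
        q * a + t = (l.map fun p => p.1 * (g : ℤ) ^ p.2).sum) →
      A.card ^ k ≤ (2 * g) ^ ((k - 1) * (k + 2) * s) *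
        ((Fintype.piFinset (fun _ : Fin k => A)).image (fun f : Fin k → ℤ => ∑ i, f i)).card) ∧
    -- (4) digit changes in one base
    (∀ g : ℕ, 2 ≤ g → ∀ k : ℕ, 1 ≤ k → ∀ (s : ℕ) (A : Finset ℤ),
      (∀ a ∈ A, ((Finset.range (a.natAbs + 1)).filter fun i =>
        a.natAbs / g ^ i % g ≠ a.natAbs / g ^ (i + 1) % g).card ≤ s) →
      A.card ^ k ≤ (2 * g) ^ ((k - 1) * (k + 2) * (s + 1)) *
        ((Fintype.piFinset (fun _ : Fin k => A)).image (fun f : Fin k → ℤ => ∑ i, f i)).card) ∧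
    -- (5) the conjecture for sets with a large subset of elements with few signed digits or
    -- few digit changes
    (∀ g : ℕ, 2 ≤ g → ∀ k : ℕ, 1 ≤ k → ∀ ε : ℝ, 0 < ε → ∃ δ : ℝ, 0 < δ ∧ ∃ c : ℝ, 0 < c ∧
      ∀ A B : Finset ℤ, A.Nonempty → B ⊆ A → (A.card : ℝ) ^ (1 - δ) ≤ B.card →
      ((∃ (s : ℕ) (q t : ℤ), q ≠ 0 ∧ (s : ℝ) ≤ δ * Real.log A.card ∧
          ∀ b ∈ B, ∃ l : List (ℤ × ℕ), l.length ≤ s ∧ (∀ p ∈ l, |p.1| < g) ∧
            q * b + t = (l.map fun p => p.1 * (g : ℤ) ^ p.2).sum) ∨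
        (∀ b ∈ B, (((Finset.range (b.natAbs + 1)).filter fun i =>
          b.natAbs / g ^ i % g ≠ b.natAbs / g ^ (i + 1) % g).card : ℝ) ≤
            δ * Real.log A.card)) →
      c * (A.card : ℝ) ^ ((k : ℝ) - ε) ≤
        max
          (((Fintype.piFinset (fun _ : Fin k => A)).image
              (fun f : Fin k → ℤ => ∑ i, f i)).card : ℝ)
          (((Fintype.piFinset (fun _ : Fin k => A)).image
              (fun f : Fin k → ℤ => ∏ i, f i)).card : ℝ)) ∧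
    -- (6) for signed sums of a general lacunary set (1) fails: three terms are enough for all
    -- positive integers
    (∃ Lam : Set ℝ, (∀ l ∈ Lam, 0 < l) ∧
      (∀ x : ℝ, 0 < x → (Lam ∩ Set.Ioc x (2 * x)).encard ≤ 2) ∧
      ∀ n : ℕ, ∃ a ∈ Lam, ∃ b ∈ Lam, ∃ c ∈ Lam, (n : ℝ) = a + b - c) := by
  refine ⟨fun k L s hk hL Lam hpos hcount q t hq A hA =>
      Pool.Agent.Y927.LS.kfold_int k L s hk hL Lam hpos hcount q t hq A hA,
    fun θ k L s hk hL Lam hpos hcount q t hq A B hne hBA hB hs hA =>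
      Pool.Agent.Y927.LS.kfold_subset θ k L s hk hL Lam hpos hcount q t hq A B hne hBA hB hs hA,
    fun g hg k hk s q t hq A h => Pool.Agent.Y927.DG.kfold g hg k hk s q t hq A h,
    fun g hg k hk s A h => Pool.Agent.Y927.DG.kfold_changes g hg k hk s A h, ?_,
    Pool.Agent.Y927.LS.signed⟩
  intro g hg k hk ε hε
  obtain ⟨δ₁, h1, c₁, hc1, H1⟩ := Pool.Agent.Y927.DG.conj_few g hg k hk ε hε
  obtain ⟨δ₂, h2, c₂, hc2, H2⟩ := Pool.Agent.Y927.DG.conj_changes g hg k hk ε hε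
  refine ⟨min δ₁ δ₂, lt_min h1 h2, min c₁ c₂, lt_min hc1 hc2, ?_⟩
  intro A B hA hBA hB hyp
  have hN1 : (1 : ℝ) ≤ A.card := by exact_mod_cast Finset.card_pos.2 hA
  have hlog : 0 ≤ Real.log A.card := Real.log_nonneg hN1
  have hp : (0 : ℝ) ≤ (A.card : ℝ) ^ ((k : ℝ) - ε) := by positivity
  have hB1 : (A.card : ℝ) ^ (1 - δ₁) ≤ B.card :=
    (Real.rpow_le_rpow_of_exponent_le hN1 (by linarith [min_le_left δ₁ δ₂])).trans hB
  have hB2 : (A.card : ℝ) ^ (1 - δ₂) ≤ B.card :=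
    (Real.rpow_le_rpow_of_exponent_le hN1 (by linarith [min_le_right δ₁ δ₂])).trans hB
  rcases hyp with ⟨s, q, t, hq, hs, hF⟩ | hF
  · have := H1 A B hA hBA hB1 s q t hq
      (hs.trans (mul_le_mul_of_nonneg_right (min_le_left _ _) hlog)) hF
    exact (mul_le_mul_of_nonneg_right (min_le_left c₁ c₂) hp).trans this
  · have := H2 A B hA hBA hB2
      (fun b hb => (hF b hb).trans (mul_le_mul_of_nonneg_right (min_le_right _ _) hlog))
    exact (mul_le_mul_of_nonneg_right (min_le_right c₁ c₂) hp).trans this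

end Pool.Agent.Results.MP_120218_co.SparseExpansions
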